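import Pool.Agent.Helper3_PPE.Stmts

/-!
# Squad PPE, module PRI: the ideal of a family
-/

set_option autoImplicit false

universe u

namespace Pool.Agent.PPE.H20

open MvPolynomial PGH PPX PPZ

variable {K : ℕ} {k : Type u} [Field k] {N₁ N₂ : ℕ} {a : Fin N₁ → k} {b : Fin N₂ → k}

theorem mem_v (T : Fam K a b) (Q : P4 k) :
    Q ∈ T.v ↔ ∀ᶠ i in (T.U : Filter T.ι), (T.C i).ev Q = 0 := Iff.rfl

theorem ev_inc (C : BC K a b) (F : MvPolynomial (Fin 2) k) : C.ev (inc F) = C.ev2 F := by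
  unfold BC.ev BC.ev2 inc
  rw [aeval_rename]
  have h : (C.pt ∘ ![0, 1] : Fin 2 → C.E) = ![C.x, C.z] := by
    funext i
    fin_cases i <;> rfl
  rw [h]

theorem pri (K : ℕ) : PriStmt.{u} K := by
  intro k _ N₁ N₂ a b T
  refine ⟨⟨?_, ?_⟩, ?_, ?_⟩
  · intro h
    have h1 : (1 : P4 k) ∈ T.v := by
      rw [h]
      exact Submodule.mem_top
    rw [mem_v] at h1
    have h2 : ∀ᶠ i in (T.U : Filter T.ι), False := by
      filter_upwards [h1] with i hi
      unfold BC.ev at hi
      rw [map_one] at hi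
      exact one_ne_zero hi
    exact h2.exists.choose_spec
  · intro p q hpq
    rw [mem_v] at hpq
    rw [mem_v, mem_v, ← Ultrafilter.eventually_or]
    filter_upwards [hpq] with i hi
    unfold BC.ev at hi ⊢
    rw [map_mul] at hi
    exact mul_eq_zero.1 hi
  · intro F hF
    by_contra h0
    have h1 := T.gen F h0
    rw [mem_v] at hF
    obtain ⟨i, h2, h3⟩ := (h1.and hF).exists
    rw [ev_inc] at h3
    exact h2 h3
  · intro Q hQ
    rw [mem_v, ← Ultrafilter.eventually_not] at hQ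
    exact hQ

end Pool.Agent.PPE.H20
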